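import Pool.Agent.Y890.SP.Omega

/-!
Relations between the periods of products of fibres of arbitrary one-parameter families: all but few of the relations
are specializations of functional relations over the field of algebraic numbers. The count of the points at which
algebraically independent functions satisfy a relation is the library theorem `Pool.Agent.Y124.excNF` (helper124,
after helper120); the reduction to it (absolute irreducibility of specializations, resultants, several points,
generalized inverses) is new.
-/

namespace Pool.Agent.Y890.Old.GeneralFamilies

open Filter Pool.Agent Pool.Agent.Y890.SP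

/-- Let `U j` be connected open sets and `f j` finite families of analytic functions on `U j` such that `ℂ(x)` is
algebraically closed in `ℂ(x, f j)`. There is `ω → ∞` such that for all large `T`, all number fields `K` of degree at
most `ω T` and all complex constants `ξ 1, …, ξ (ω T)`: all but at most `T ^ (1 / ω T) * N ^ n` of the `n + 1`-tuples
`s` of elements of `K` of height at most `T`, with `s j` in the disc of radius `ω T` and at distance at least
`1 / ω T` from the complement of `U j`, have the following property. Every polynomial relation between the numbers
`f j y (s j)`, of partial degrees at most `ω T`, with coefficients `∑ ξ i * c l i`, where the `c l i` are integers of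
`K` all of whose conjugates are at most `T ^ ω T`, is the specialization at `s` of a functional relation on
`∏ U j` with coefficients `∑ ξ i * G l i`, where the `G l i` are polynomials with algebraic coefficients and
`G l i (s) = c l i`. Here `N` is the number of elements of `K` of height at most `T`. -/
theorem result {n : ℕ} {σ : Type} [Fintype σ] [DecidableEq σ] (U : Fin (n + 1) → Set ℂ)
    (f : Fin (n + 1) → σ → ℂ → ℂ) (hU : ∀ j, IsPreconnected (U j)) (hUo : ∀ j, IsOpen (U j))
    (hne : ∀ j, (U j).Nonempty) (hf : ∀ j i, AnalyticOnNhd ℂ (f j i) (U j)) (hreg : ∀ j, Regular (U j) (f j)) :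
    ∃ (ω : ℝ → ℕ) (T₀ : ℝ), Tendsto ω atTop atTop ∧ Monotone ω ∧ ∀ T, T₀ ≤ T → 0 < ω T ∧
      ∀ (K : Type) [Field K] [NumberField K], Module.finrank ℚ K ≤ ω T → ∀ (io : K →+* ℂ) (ξ : Fin (ω T) → ℂ),
        (Exc (ω T) U f (fun j => Core (U j) (ω T)) K io ξ (ω T) T).Finite ∧
          ((Exc (ω T) U f (fun j => Core (U j) (ω T)) K io ξ (ω T) T).ncard : ℝ) ≤
            T ^ ((ω T : ℝ)⁻¹) * ({x : K | Y120.HtLe K T x}.ncard : ℝ) ^ n :=
  exc_omega hU hUo hne hf hreg

end Pool.Agent.Y890.Old.GeneralFamilies
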